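import Mathlib
import Pool.Agent.Q158.EntB

set_option autoImplicit false

open Filter

namespace Pool.Agent.Results.MP_e13f3c_al.ZeroOrInfinite

/-- `T_n(φ,F) = F + φ(F) + ⋯ + φ^{n-1}(F)` -/
def T {G : Type*} [AddCommGroup G] (φ : AddMonoid.End G) (F : AddSubgroup G) (n : ℕ) :
    AddSubgroup G :=
  ⨆ i : Fin n, F.map (φ ^ (i : ℕ) : AddMonoid.End G)

/-- `H(φ,F)`, the limit of `log |T_n(φ,F)| / n` (the limit exists; it is written as an upper
limit, with values in the extended reals) -/
noncomputable def H {G : Type*} [AddCommGroup G] (φ : AddMonoid.End G) (F : AddSubgroup G) : EReal :=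
  limsup (fun n : ℕ => ((Real.log (Nat.card (T φ F n)) / n : ℝ) : EReal)) atTop

/-- the algebraic entropy `ent(φ) = sup {H(φ,F) : F a finite subgroup}` -/
noncomputable def ent {G : Type*} [AddCommGroup G] (φ : AddMonoid.End G) : EReal :=
  ⨆ F : {F : AddSubgroup G // Finite F}, H φ F.1

/-- Every continuous endomorphism of `K^ℕ` (`K` a finite non-trivial abelian group, product
topology of the discrete topologies) has algebraic entropy `0` or `∞`. -/
theorem result {K : Type*} [AddCommGroup K] [Finite K] [Nontrivial K] [TopologicalSpace K]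
    [DiscreteTopology K] (φ : AddMonoid.End (ℕ → K)) (hφ : Continuous φ) :
    ent φ = 0 ∨ ent φ = ⊤ :=
  Pool.Agent.Q158.Ent.dichotomy φ hφ

end Pool.Agent.Results.MP_e13f3c_al.ZeroOrInfinite
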